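import Pool.Agent.Lib.MP_6bc78b_nt.GP.H11.Defs11

/-! Project GP11 (MP_6bc78b_nt): the twisted mean square of `ζ'` over the zeros (TSD), second way:
`om0 ζ A(1/2 + it)` is the transform of `Φ(2πi e^{u - iδ}) e^{u/2}`, `Φ(z) = ∑ a(m) φ(mz)`,
`φ(z) = 1/(e^z - 1) - 1/z`. Definitions and statements of the rows. -/

set_option autoImplicit false

open Complex Filter Topology MeasureTheory Set
open scoped ENNReal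

namespace Pool.Agent.Lib.MP_6bc78b_nt.GP.G11Z

open Pool.Agent.Lib.MP_6bc78b_nt.MS Pool.Agent.Lib.MP_6bc78b_nt.MS.P1
open Pool.Agent.Lib.MP_6bc78b_nt.GP Pool.Agent.Lib.MP_6bc78b_nt.GP.G7
open Pool.Agent.Lib.MP_6bc78b_nt.GP.G10 Pool.Agent.Lib.MP_6bc78b_nt.GP.G11

/-- `φ(z) = 1/(e^z - 1) - 1/z`. -/
noncomputable def ph1 (z : ℂ) : ℂ := 1 / (Complex.exp z - 1) - 1 / z

/-- `Φ(z) = ∑ a(m) φ(mz)`. -/
noncomputable def Ph (S : Finset ℕ) (a : ℕ → ℂ) (z : ℂ) : ℂ := ∑ m ∈ S, a m * ph1 (m * z)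

/-- `2πi e^{u - iδ}`. -/
noncomputable def zr (u δ : ℝ) : ℂ := 2 * Real.pi * I * Complex.exp (u - δ * I)

/-- The weight `L u² + u⁴ / L`. -/
noncomputable def wt (T u : ℝ) : ℝ := Real.log T * u ^ 2 + u ^ 4 / Real.log T

/-- ZMEL: the transform (Mellin transform of `φ` in `0 < Re s < 1`, rotated). -/
def ZMELStatement : Prop := ∀ (S : Finset ℕ) (a : ℕ → ℂ) (δ : ℝ), (∀ m ∈ S, 1 ≤ m) → 0 < δ →
  δ ≤ 1 / 2 →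
  Continuous (fun u : ℝ => Ph S a (zr u δ)) ∧
  Integrable (fun u : ℝ => ((1 + u ^ 4 : ℝ) : ℂ) * (Ph S a (zr u δ) *
    ((Real.exp (u / 2) : ℝ) : ℂ))) ∧
  ∀ t : ℝ, om0 δ (1 / 2 + t * I) * riemannZeta (1 / 2 + t * I) * cA S a (1 / 2 + t * I) =
    ∫ u : ℝ, Ph S a (zr u δ) * ((Real.exp (u / 2) : ℝ) : ℂ) * Complex.exp (u * t * I)

/-- ZPOS: the frequencies `u ≥ 0`, averaged over `δ` (full circles, `c(n) = ∑_{m | n} a(m)`). -/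
def ZPOSStatement : Prop := ∃ C T0 : ℝ, 0 < C ∧ 10 < T0 ∧
  ∀ (T : ℝ) (S : Finset ℕ) (a : ℕ → ℂ), T0 ≤ T →
    (∀ m ∈ S, 1 ≤ m ∧ (m : ℝ) ≤ Real.exp (Real.log (Real.log T) ^ 6)) →
    ∫⁻ δ in Icc (1 / T) (2 / T), ∫⁻ u in Ici (0 : ℝ),
      ENNReal.ofReal (‖Ph S a (zr u δ)‖ ^ 2 * Real.exp u * wt T u) ≤
      ENNReal.ofReal (C * (Real.log T ^ 4 * Qf S a +
        Real.log T ^ 3 * Real.log (Real.log T) ^ 10 * Rf S a))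

/-- ZNEG: the frequencies `u ≤ 0` (partial fractions). -/
def ZNEGStatement : Prop := ∃ C T0 : ℝ, 0 < C ∧ 10 < T0 ∧
  ∀ (T δ : ℝ) (S : Finset ℕ) (a : ℕ → ℂ), T0 ≤ T → 1 / T ≤ δ → δ ≤ 2 / T →
    (∀ m ∈ S, 1 ≤ m ∧ (m : ℝ) ≤ Real.exp (Real.log (Real.log T) ^ 6)) →
    ∫⁻ u in Iic (0 : ℝ),
      ENNReal.ofReal (‖Ph S a (zr u δ)‖ ^ 2 * Real.exp u * wt T u) ≤
      ENNReal.ofReal (C * T * Real.log T ^ 3 * Rf S a)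

end Pool.Agent.Lib.MP_6bc78b_nt.GP.G11Z
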