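import Pool.Agent.Lib.MP_6bc78b_nt.GP.H2.DefsZ

/-! Project GP11, row ZNEG (helper2), part 1: bounds for `φ(z) = 1/(e^z - 1) - 1/z`. -/

set_option autoImplicit false

open Complex Filter Topology MeasureTheory Set

namespace Pool.Agent.Lib.MP_6bc78b_nt.GP.G11Z

/-- `(2/π) |w| ≤ |e^w - 1|`. -/
lemma exp_lower {w : ℂ} (h0 : 0 ≤ w.re) (h1 : |w.im| ≤ Real.pi) :
    2 / Real.pi * ‖w‖ ≤ ‖Complex.exp w - 1‖ := by
  have hpi := Real.pi_pos
  have hpi3 := Real.pi_gt_three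
  have e1 : ‖Complex.exp w - 1‖ ^ 2 = (Real.exp w.re - 1) ^ 2 +
      2 * Real.exp w.re * (1 - Real.cos w.im) := by
    rw [← Complex.normSq_eq_norm_sq, Complex.normSq_apply]
    simp only [Complex.sub_re, Complex.sub_im, Complex.one_re, Complex.one_im, Complex.exp_re,
      Complex.exp_im]
    have := Real.sin_sq_add_cos_sq w.im
    nlinarith [this, sq_nonneg (Real.exp w.re)]
  have e2 : ‖w‖ ^ 2 = w.re ^ 2 + w.im ^ 2 := by
    rw [← Complex.normSq_eq_norm_sq, Complex.normSq_apply]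
    ring
  have h2 : w.re ≤ Real.exp w.re - 1 := by linarith [Real.add_one_le_exp w.re]
  have h3 : w.re ^ 2 ≤ (Real.exp w.re - 1) ^ 2 := pow_le_pow_left₀ h0 h2 2
  have h4 : 2 / Real.pi ^ 2 * w.im ^ 2 ≤ 1 - Real.cos w.im := by
    linarith [Real.cos_le_one_sub_mul_cos_sq h1]
  have h5 : 1 ≤ Real.exp w.re := Real.one_le_exp h0
  have h6 : 4 / Real.pi ^ 2 * w.im ^ 2 ≤ 2 * Real.exp w.re * (1 - Real.cos w.im) := by
    have h7 : 0 ≤ 1 - Real.cos w.im := by linarith [Real.cos_le_one w.im]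
    calc 4 / Real.pi ^ 2 * w.im ^ 2 = 2 * (2 / Real.pi ^ 2 * w.im ^ 2) := by ring
      _ ≤ 2 * (1 - Real.cos w.im) := by linarith
      _ ≤ 2 * Real.exp w.re * (1 - Real.cos w.im) := by nlinarith
  have h8 : 4 / Real.pi ^ 2 ≤ 1 := by
    rw [div_le_one (by positivity)]
    nlinarith
  have h9 : (2 / Real.pi * ‖w‖) ^ 2 ≤ ‖Complex.exp w - 1‖ ^ 2 := by
    rw [e1, mul_pow, e2]
    have : (2 / Real.pi) ^ 2 = 4 / Real.pi ^ 2 := by
      rw [div_pow]
      norm_num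
    rw [this]
    nlinarith [sq_nonneg w.re]
  exact le_of_sq_le_sq h9 (norm_nonneg _) |>.trans le_rfl

/-- `|φ(w)| ≤ 3` near the ray. -/
lemma ph1_le_three {w : ℂ} (h0 : 0 ≤ w.re) (h1 : |w.im| ≤ Real.pi) : ‖ph1 w‖ ≤ 3 := by
  have hpi := Real.pi_pos
  have hpi3 := Real.pi_gt_three
  have hpi4 := Real.pi_lt_four
  by_cases hw : w = 0
  · subst hw
    simp [ph1]
  have hn : 0 < ‖w‖ := norm_pos_iff.2 hw
  have hl := exp_lower h0 h1
  have he : 0 < ‖Complex.exp w - 1‖ := lt_of_lt_of_le (by positivity) hl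
  have he0 : Complex.exp w - 1 ≠ 0 := norm_pos_iff.1 he
  have hinv : 1 / ‖Complex.exp w - 1‖ ≤ Real.pi / 2 / ‖w‖ := by
    rw [div_le_div_iff₀ he hn]
    have : Real.pi / 2 * (2 / Real.pi * ‖w‖) = ‖w‖ := by field_simp
    nlinarith
  by_cases hw1 : ‖w‖ ≤ 1
  · have e1 : ph1 w = -(Complex.exp w - 1 - w) / (w * (Complex.exp w - 1)) := by
      unfold ph1
      field_simp
      ring
    rw [e1, norm_div, norm_neg, norm_mul]
    have h2 := Complex.norm_exp_sub_one_sub_id_le hw1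
    calc ‖Complex.exp w - 1 - w‖ / (‖w‖ * ‖Complex.exp w - 1‖)
        ≤ ‖w‖ ^ 2 / (‖w‖ * ‖Complex.exp w - 1‖) := by gcongr
      _ = ‖w‖ * (1 / ‖Complex.exp w - 1‖) := by field_simp
      _ ≤ ‖w‖ * (Real.pi / 2 / ‖w‖) := by gcongr
      _ = Real.pi / 2 := by field_simp
      _ ≤ 3 := by linarith
  · push Not at hw1
    unfold ph1
    calc ‖1 / (Complex.exp w - 1) - 1 / w‖ ≤ ‖1 / (Complex.exp w - 1)‖ + ‖1 / w‖ :=
          norm_sub_le _ _
      _ = 1 / ‖Complex.exp w - 1‖ + 1 / ‖w‖ := by rw [norm_div, norm_div, norm_one]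
      _ ≤ Real.pi / 2 / ‖w‖ + 1 / ‖w‖ := by gcongr
      _ = (Real.pi / 2 + 1) / ‖w‖ := by ring
      _ ≤ (Real.pi / 2 + 1) / 1 := by gcongr
      _ ≤ 3 := by linarith

/-- The poles. -/
lemma ph1_le {m : ℕ} {ζ : ℂ} (h0 : 0 ≤ ζ.re) (h1 : ζ.re ≤ m) (h2 : ζ.im < 0) :
    ‖ph1 (2 * Real.pi * I * ζ)‖ ≤ 3 + ∑ n ∈ Finset.Icc 1 m, 1 / (4 * ‖ζ - n‖) := by
  have hpi := Real.pi_pos
  have hpi3 := Real.pi_gt_three
  have hsum : 0 ≤ ∑ n ∈ Finset.Icc 1 m, 1 / (4 * ‖ζ - n‖) :=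
    Finset.sum_nonneg fun n _ => by positivity
  have hre : ∀ z : ℂ, (2 * Real.pi * I * z).re = -(2 * Real.pi * z.im) := fun z => by
    simp [Complex.mul_re, Complex.mul_im]
  have him : ∀ z : ℂ, (2 * Real.pi * I * z).im = 2 * Real.pi * z.re := fun z => by
    simp [Complex.mul_re, Complex.mul_im]
  set k : ℕ := ⌊ζ.re + 1 / 2⌋₊ with hk
  have hk1 : (k : ℝ) ≤ ζ.re + 1 / 2 := Nat.floor_le (by linarith)
  have hk2 : ζ.re + 1 / 2 < k + 1 := Nat.lt_floor_add_one _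
  by_cases hk0 : k = 0
  · rw [hk0] at hk2
    have h3 : ‖ph1 (2 * Real.pi * I * ζ)‖ ≤ 3 := by
      apply ph1_le_three
      · rw [hre]
        nlinarith
      · rw [him, abs_of_nonneg (by positivity)]
        have : ζ.re ≤ 1 / 2 := by
          push_cast at hk2
          linarith
        nlinarith
    linarith
  · have hk3 : 1 ≤ k := Nat.one_le_iff_ne_zero.2 hk0
    have hkm : k ≤ m := by
      have : (k : ℝ) < m + 1 := by linarith
      exact_mod_cast Nat.lt_succ_iff.1 (by exact_mod_cast this)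
    have hζ1 : 1 / 2 ≤ ζ.re := by
      have : (1 : ℝ) ≤ k := by exact_mod_cast hk3
      linarith
    have hζn : 1 / 2 ≤ ‖ζ‖ := hζ1.trans (Complex.re_le_norm ζ)
    have he : Complex.exp (2 * Real.pi * I * ζ) = Complex.exp (2 * Real.pi * I * (ζ - k)) := by
      rw [mul_sub, Complex.exp_sub]
      have : Complex.exp (2 * Real.pi * I * k) = 1 := by
        rw [mul_comm]
        exact Complex.exp_nat_mul_two_pi_mul_I k
      rw [this, div_one]
    have hl : 4 * ‖ζ - k‖ ≤ ‖Complex.exp (2 * Real.pi * I * (ζ - k)) - 1‖ := by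
      have h3 := exp_lower (w := 2 * Real.pi * I * (ζ - k)) (by
        rw [hre]
        simp only [Complex.sub_im, Complex.natCast_im, sub_zero]
        nlinarith) (by
        rw [him]
        simp only [Complex.sub_re, Complex.natCast_re]
        rw [abs_mul, abs_of_pos (by positivity : (0:ℝ) < 2 * Real.pi)]
        have : |ζ.re - k| ≤ 1 / 2 := by
          rw [abs_le]
          constructor <;> linarith
        nlinarith)
      have e2 : 2 / Real.pi * ‖2 * Real.pi * I * (ζ - k)‖ = 4 * ‖ζ - k‖ := by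
        rw [norm_mul, norm_mul, norm_mul, Complex.norm_I, Complex.norm_real, Real.norm_eq_abs,
          abs_of_pos hpi]
        simp only [Complex.norm_ofNat, mul_one]
        field_simp
        ring
      rwa [e2] at h3
    have hd : 0 < ‖ζ - k‖ := by
      rw [norm_pos_iff]
      intro h
      have : (ζ - k).im = 0 := by rw [h]; rfl
      simp only [Complex.sub_im, Complex.natCast_im, sub_zero] at this
      linarith
    have h5 : 1 / (4 * ‖ζ - k‖) ≤ ∑ n ∈ Finset.Icc 1 m, 1 / (4 * ‖ζ - n‖) :=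
      Finset.single_le_sum (f := fun n : ℕ => 1 / (4 * ‖ζ - n‖)) (fun n _ => by positivity)
        (Finset.mem_Icc.2 ⟨hk3, hkm⟩)
    unfold ph1
    rw [he]
    calc ‖1 / (Complex.exp (2 * Real.pi * I * (ζ - k)) - 1) - 1 / (2 * Real.pi * I * ζ)‖
        ≤ ‖1 / (Complex.exp (2 * Real.pi * I * (ζ - k)) - 1)‖ + ‖1 / (2 * Real.pi * I * ζ)‖ :=
          norm_sub_le _ _
      _ = 1 / ‖Complex.exp (2 * Real.pi * I * (ζ - k)) - 1‖ + 1 / (2 * Real.pi * ‖ζ‖) := by
          rw [norm_div, norm_div, norm_one, norm_mul, norm_mul, norm_mul, Complex.norm_I,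
            Complex.norm_real, Real.norm_eq_abs, abs_of_pos hpi]
          simp only [Complex.norm_ofNat, mul_one]
      _ ≤ 1 / (4 * ‖ζ - k‖) + 1 / (2 * Real.pi * (1 / 2)) := by gcongr
      _ ≤ 1 / (4 * ‖ζ - k‖) + 3 := by
          have : 1 / (2 * Real.pi * (1 / 2)) ≤ 3 := by
            rw [div_le_iff₀ (by positivity)]
            nlinarith
          linarith
      _ ≤ _ := by linarith

end Pool.Agent.Lib.MP_6bc78b_nt.GP.G11Z
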