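import Mathlib

/-! Project GP11, row ZNEG (helper2), part 2: the integrals of the kernels
`1 / |x e^{-iδ} - r|`. -/

set_option autoImplicit false

open Complex Filter Topology MeasureTheory Set

namespace Pool.Agent.Lib.MP_6bc78b_nt.GP.G11Z

/-- `1 / |x e^{-iδ} - r|`. -/
noncomputable def kk (δ r x : ℝ) : ℝ := 1 / ‖(x : ℂ) * Complex.exp (-(δ * I)) - r‖

lemma normsq_ray (δ r x : ℝ) :
    ‖(x : ℂ) * Complex.exp (-(δ * I)) - r‖ ^ 2 = x ^ 2 - 2 * x * r * Real.cos δ + r ^ 2 := by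
  rw [← Complex.normSq_eq_norm_sq, Complex.normSq_apply]
  have e1 : Complex.exp (-(δ * I)) = (Real.cos δ : ℂ) - (Real.sin δ : ℂ) * I := by
    rw [← neg_mul, Complex.exp_mul_I, Complex.cos_neg, Complex.sin_neg, Complex.ofReal_cos,
      Complex.ofReal_sin]
    ring
  rw [e1]
  simp only [Complex.sub_re, Complex.sub_im, Complex.mul_re, Complex.mul_im, Complex.ofReal_re,
    Complex.ofReal_im, Complex.I_re, Complex.I_im]
  have := Real.sin_sq_add_cos_sq δ
  nlinarith [this, sq_nonneg x]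

/-- distance from `r` -/
lemma dist_lower (δ r x : ℝ) :
    (x - r) ^ 2 / 2 + (r * Real.sin δ) ^ 2 / 2 ≤ ‖(x : ℂ) * Complex.exp (-(δ * I)) - r‖ ^ 2 ∨
      x * r < 0 := by
  by_cases hxr : x * r < 0
  · exact Or.inr hxr
  · left
    push Not at hxr
    rw [normsq_ray]
    have h1 := Real.sin_sq_add_cos_sq δ
    have h2 := Real.cos_le_one δ
    have h3 : 0 ≤ (x - r * Real.cos δ) ^ 2 := sq_nonneg _
    -- x^2 - 2xrc + r^2 = (x - rc)^2 + r^2 s^2 and = (x-r)^2 + 2xr(1-c)
    have e1 : x ^ 2 - 2 * x * r * Real.cos δ + r ^ 2 =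
        (x - r * Real.cos δ) ^ 2 + (r * Real.sin δ) ^ 2 := by
      nlinarith [h1]
    have e2 : x ^ 2 - 2 * x * r * Real.cos δ + r ^ 2 =
        (x - r) ^ 2 + 2 * (x * r) * (1 - Real.cos δ) := by ring
    have h4 : 0 ≤ 2 * (x * r) * (1 - Real.cos δ) := by
      apply mul_nonneg
      · linarith
      · linarith
    linarith

lemma dist_pos {δ r : ℝ} (hδ : 0 < Real.sin δ) (hr : 0 < r) (x : ℝ) :
    0 < ‖(x : ℂ) * Complex.exp (-(δ * I)) - r‖ := by
  have e1 : ‖(x : ℂ) * Complex.exp (-(δ * I)) - r‖ ^ 2 =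
      (x - r * Real.cos δ) ^ 2 + (r * Real.sin δ) ^ 2 := by
    rw [normsq_ray]
    nlinarith [Real.sin_sq_add_cos_sq δ]
  have h1 : 0 < (r * Real.sin δ) ^ 2 := by positivity
  have h2 : 0 < ‖(x : ℂ) * Complex.exp (-(δ * I)) - r‖ ^ 2 := by
    rw [e1]
    positivity
  refine lt_of_le_of_ne (norm_nonneg _) fun h => ?_
  rw [← h] at h2
  norm_num at h2

lemma kk_cont {δ r : ℝ} (hδ : 0 < Real.sin δ) (hr : 0 < r) : Continuous (kk δ r) := by
  unfold kk
  refine Continuous.div continuous_const (by fun_prop) fun x => (dist_pos hδ hr x).ne'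

lemma kk_nonneg (δ r x : ℝ) : 0 ≤ kk δ r x := by
  unfold kk
  positivity

/-- the diagonal integral -/
lemma int_kk_sq {δ r : ℝ} (hδ : 0 < Real.sin δ) (hr : 0 < r) :
    ∫ x in (0:ℝ)..1, kk δ r x ^ 2 ≤ 2 * Real.pi / (r * Real.sin δ) := by
  set h : ℝ := r * Real.sin δ with hh
  have hh0 : 0 < h := by positivity
  have hc := (kk_cont hδ hr).pow 2
  have hc2 : Continuous fun x : ℝ => 2 / h ^ 2 * (1 + (x / h - r / h) ^ 2)⁻¹ := by
    refine Continuous.mul continuous_const (Continuous.inv₀ (by fun_prop) fun x => by positivity)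
  have h1 : ∫ x in (0:ℝ)..1, kk δ r x ^ 2 ≤
      ∫ x in (0:ℝ)..1, 2 / h ^ 2 * (1 + (x / h - r / h) ^ 2)⁻¹ := by
    refine intervalIntegral.integral_mono_on zero_le_one (hc.intervalIntegrable _ _)
      (hc2.intervalIntegrable _ _) fun x hx => ?_
    have hd := dist_pos hδ hr x
    have hl : (x - r) ^ 2 / 2 + (r * Real.sin δ) ^ 2 / 2 ≤
        ‖(x : ℂ) * Complex.exp (-(δ * I)) - r‖ ^ 2 := by
      rcases dist_lower δ r x with h2 | h2
      · exact h2
      · exact absurd h2 (not_lt.2 (mul_nonneg hx.1 hr.le))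
    have e1 : 2 / h ^ 2 * (1 + (x / h - r / h) ^ 2)⁻¹ = 1 / ((x - r) ^ 2 / 2 + h ^ 2 / 2) := by
      have : (1 + (x / h - r / h) ^ 2) = (h ^ 2 + (x - r) ^ 2) / h ^ 2 := by
        field_simp
      rw [this]
      field_simp
      ring
    rw [e1]
    unfold kk
    rw [div_pow, one_pow]
    exact one_div_le_one_div_of_le (by positivity) hl
  refine h1.trans ?_
  rw [intervalIntegral.integral_const_mul]
  have e2 : ∫ x in (0:ℝ)..1, (1 + (x / h - r / h) ^ 2)⁻¹ =
      h * (Real.arctan (1 / h - r / h) - Real.arctan (0 / h - r / h)) := by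
    rw [intervalIntegral.integral_comp_div_sub (fun y => (1 + y ^ 2)⁻¹) hh0.ne' (r / h),
      integral_inv_one_add_sq, smul_eq_mul]
  rw [e2]
  have h3 := Real.arctan_lt_pi_div_two (1 / h - r / h)
  have h4 := Real.neg_pi_div_two_lt_arctan (0 / h - r / h)
  calc 2 / h ^ 2 * (h * (Real.arctan (1 / h - r / h) - Real.arctan (0 / h - r / h)))
      ≤ 2 / h ^ 2 * (h * Real.pi) := by
        gcongr
        linarith
    _ = 2 * Real.pi / h := by field_simp

/-- two different poles -/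
lemma kk_mul_le {δ r r' : ℝ} (hδ : 0 < Real.sin δ) (hr : 0 < r) (hr' : 0 < r') (hne : r ≠ r')
    (x : ℝ) : kk δ r x * kk δ r' x ≤ 1 / |r - r'| * (kk δ r x + kk δ r' x) := by
  have h1 := dist_pos hδ hr x
  have h2 := dist_pos hδ hr' x
  have hD : 0 < |r - r'| := abs_pos.2 (sub_ne_zero.2 hne)
  unfold kk
  set p := ‖(x : ℂ) * Complex.exp (-(δ * I)) - r‖
  set q := ‖(x : ℂ) * Complex.exp (-(δ * I)) - r'‖
  have h3 : |r - r'| ≤ p + q := by
    have e : ((r - r' : ℝ) : ℂ) = ((x : ℂ) * Complex.exp (-(δ * I)) - r') -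
        ((x : ℂ) * Complex.exp (-(δ * I)) - r) := by
      push_cast
      ring
    calc |r - r'| = ‖((r - r' : ℝ) : ℂ)‖ := by rw [Complex.norm_real, Real.norm_eq_abs]
      _ ≤ q + p := by
        rw [e]
        exact norm_sub_le _ _
      _ = p + q := add_comm _ _
  have e2 : 1 / |r - r'| * (1 / p + 1 / q) = (p + q) / (|r - r'| * (p * q)) := by
    field_simp
    ring
  rw [e2, div_mul_div_comm, one_mul, div_le_div_iff₀ (by positivity) (by positivity), one_mul]
  exact mul_le_mul_of_nonneg_right h3 (by positivity)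

/-- the off-diagonal integral -/
lemma int_kk_off {δ r r' R M : ℝ} (hδ : 0 < Real.sin δ) (hr : 0 < r) (hr' : 0 < r')
    (hne : r ≠ r') (hR : 0 < R) (h1 : 2 * Real.pi / (r * Real.sin δ) ≤ M * R ^ 2)
    (h2 : 2 * Real.pi / (r' * Real.sin δ) ≤ M * R ^ 2) :
    ∫ x in (0:ℝ)..1, kk δ r x * kk δ r' x ≤ 1 / |r - r'| * ((M + 1) * R) := by
  have hc := kk_cont hδ hr
  have hc' := kk_cont hδ hr'
  have hD : 0 < |r - r'| := abs_pos.2 (sub_ne_zero.2 hne)
  have h3 : ∫ x in (0:ℝ)..1, kk δ r x * kk δ r' x ≤ ∫ x in (0:ℝ)..1,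
      1 / |r - r'| * ((kk δ r x ^ 2 / R + R) / 2 + (kk δ r' x ^ 2 / R + R) / 2) := by
    refine intervalIntegral.integral_mono_on zero_le_one ((hc.mul hc').intervalIntegrable _ _)
      (Continuous.intervalIntegrable (by fun_prop) _ _) fun x _ => ?_
    refine (kk_mul_le hδ hr hr' hne x).trans ?_
    have am : ∀ k : ℝ, k ≤ (k ^ 2 / R + R) / 2 := by
      intro k
      have : 0 ≤ (k - R) ^ 2 / R := by positivity
      have e : (k - R) ^ 2 / R = k ^ 2 / R - 2 * k + R := by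
        field_simp
        ring
      rw [e] at this
      linarith
    have := am (kk δ r x)
    have := am (kk δ r' x)
    gcongr
  refine h3.trans ?_
  rw [intervalIntegral.integral_const_mul]
  have hi : IntervalIntegrable (fun x => (kk δ r x ^ 2 / R + R) / 2) volume 0 1 :=
    Continuous.intervalIntegrable (by fun_prop) _ _
  have hi' : IntervalIntegrable (fun x => (kk δ r' x ^ 2 / R + R) / 2) volume 0 1 :=
    Continuous.intervalIntegrable (by fun_prop) _ _
  rw [intervalIntegral.integral_add hi hi']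
  have ev : ∀ s : ℝ, 0 < s → 2 * Real.pi / (s * Real.sin δ) ≤ M * R ^ 2 →
      ∫ x in (0:ℝ)..1, (kk δ s x ^ 2 / R + R) / 2 ≤ (M + 1) * R / 2 := by
    intro s hs h4
    have hcs := kk_cont hδ hs
    rw [intervalIntegral.integral_div, intervalIntegral.integral_add
      (Continuous.intervalIntegrable (by fun_prop) _ _)
      (Continuous.intervalIntegrable (by fun_prop) _ _), intervalIntegral.integral_div,
      intervalIntegral.integral_const]
    have h5 := (int_kk_sq hδ hs).trans h4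
    have h6 : (∫ x in (0:ℝ)..1, kk δ s x ^ 2) / R ≤ M * R := by
      rw [div_le_iff₀ hR]
      nlinarith
    simp only [sub_zero, smul_eq_mul, one_mul]
    linarith
  have h7 := ev r hr h1
  have h8 := ev r' hr' h2
  have h9 : (∫ x in (0:ℝ)..1, (kk δ r x ^ 2 / R + R) / 2) +
      ∫ x in (0:ℝ)..1, (kk δ r' x ^ 2 / R + R) / 2 ≤ (M + 1) * R := by linarith
  exact mul_le_mul_of_nonneg_left h9 (by positivity)

end Pool.Agent.Lib.MP_6bc78b_nt.GP.G11Z
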