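import Pool.Agent.Lib.MP_6bc78b_nt.GP.H2.Zn2

/-! Project GP11, row ZNEG (helper2), part 3: the fractions with denominators `m` and `m'`. -/

set_option autoImplicit false

open Complex Filter Topology MeasureTheory Set

namespace Pool.Agent.Lib.MP_6bc78b_nt.GP.G11Z

lemma harm (g : ℕ) : ∑ j ∈ Finset.Icc 1 g, (1 : ℝ) / j ≤ 1 + Real.log g := by
  have h := harmonic_le_one_add_log g
  rw [harmonic_eq_sum_Icc] at h
  push_cast at h
  simpa only [one_div] using h

/-- equal fractions -/
lemma diag_le {m m' : ℕ} (hm : 1 ≤ m) {c : ℝ} (hc : 0 ≤ c) :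
    ∑ n ∈ Finset.Icc 1 m, ∑ n' ∈ Finset.Icc 1 m', (if n * m' = n' * m then c * m / n else 0) ≤
      c * (Nat.gcd m m') * (1 + Real.log (Nat.gcd m m')) := by
  set g := Nat.gcd m m' with hg
  have hg0 : 0 < g := Nat.gcd_pos_of_pos_left _ hm
  obtain ⟨q, hq⟩ : g ∣ m := Nat.gcd_dvd_left _ _
  have hq0 : 0 < q := by
    rcases Nat.eq_zero_or_pos q with h | h
    · rw [h] at hq
      omega
    · exact h
  have h1 : ∀ n ∈ Finset.Icc 1 m, ∑ n' ∈ Finset.Icc 1 m',
      (if n * m' = n' * m then c * m / n else 0) ≤ if q ∣ n then c * m / n else 0 := by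
    intro n hn
    have hcn : 0 ≤ c * m / n := by positivity
    by_cases hd : q ∣ n
    · rw [if_pos hd, ← Finset.sum_filter]
      rw [Finset.sum_const, nsmul_eq_mul]
      have hcard : ((Finset.Icc 1 m').filter fun n' => n * m' = n' * m).card ≤ 1 := by
        rw [Finset.card_le_one]
        intro a ha b hb
        have h2 := (Finset.mem_filter.1 ha).2
        have h3 := (Finset.mem_filter.1 hb).2
        exact Nat.eq_of_mul_eq_mul_right hm (h2.symm.trans h3)
      calc (((Finset.Icc 1 m').filter fun n' => n * m' = n' * m).card : ℝ) * (c * m / n)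
          ≤ 1 * (c * m / n) := by
            gcongr
            exact_mod_cast hcard
        _ = c * m / n := one_mul _
    · rw [if_neg hd]
      refine le_of_eq (Finset.sum_eq_zero fun n' _ => if_neg fun h => hd ?_)
      obtain ⟨q', hq'⟩ : g ∣ m' := Nat.gcd_dvd_right _ _
      have hcop : Nat.Coprime q q' := by
        have h4 := Nat.coprime_div_gcd_div_gcd (m := m) (n := m') hg0
        rw [← hg] at h4
        rw [hq, Nat.mul_div_cancel_left q hg0] at h4
        rwa [hq', Nat.mul_div_cancel_left q' hg0] at h4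
      have h5 : n * q' = n' * q := by
        have h6 : g * (n * q') = g * (n' * q) := by
          calc g * (n * q') = n * (g * q') := by ring
            _ = n * m' := by rw [← hq']
            _ = n' * m := h
            _ = n' * (g * q) := by rw [← hq]
            _ = g * (n' * q) := by ring
        exact Nat.eq_of_mul_eq_mul_left hg0 h6
      exact hcop.dvd_of_dvd_mul_right (h5 ▸ Dvd.intro_left n' rfl)
  refine (Finset.sum_le_sum h1).trans ?_
  rw [← Finset.sum_filter]
  have hsub : (Finset.Icc 1 m).filter (fun n => q ∣ n) ⊆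
      (Finset.Icc 1 g).image fun j => j * q := by
    intro n hn
    obtain ⟨hn1, j, hj⟩ := Finset.mem_filter.1 hn
    obtain ⟨h2, h3⟩ := Finset.mem_Icc.1 hn1
    refine Finset.mem_image.2 ⟨j, Finset.mem_Icc.2 ⟨?_, ?_⟩, by rw [hj]; ring⟩
    · rcases Nat.eq_zero_or_pos j with h | h
      · rw [h] at hj
        omega
      · exact h
    · rw [hj, hq] at h3
      have : q * j ≤ q * g := by
        calc q * j ≤ g * q := h3
          _ = q * g := by ring
      exact Nat.le_of_mul_le_mul_left this hq0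
  have hinj : Set.InjOn (fun j : ℕ => j * q) (Finset.Icc 1 g : Finset ℕ) :=
    fun a _ b _ hab => Nat.eq_of_mul_eq_mul_right hq0 hab
  calc ∑ n ∈ (Finset.Icc 1 m).filter (fun n => q ∣ n), c * m / n
      ≤ ∑ n ∈ (Finset.Icc 1 g).image fun j => j * q, c * (m : ℝ) / n :=
        Finset.sum_le_sum_of_subset_of_nonneg hsub fun _ _ _ => by positivity
    _ = ∑ j ∈ Finset.Icc 1 g, c * (m : ℝ) / ((j * q : ℕ) : ℝ) := Finset.sum_image hinj
    _ = c * g * ∑ j ∈ Finset.Icc 1 g, (1 : ℝ) / j := by
        rw [Finset.mul_sum]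
        refine Finset.sum_congr rfl fun j hj => ?_
        have hj1 : (j : ℝ) ≠ 0 := by
          have := (Finset.mem_Icc.1 hj).1
          positivity
        have hq1 : (q : ℝ) ≠ 0 := by positivity
        rw [hq]
        push_cast
        field_simp
    _ ≤ c * g * (1 + Real.log g) := by
        gcongr
        exact harm g

/-- the integral of the product of the sums over the fractions with denominators `m`, `m'` -/
lemma int_pair {δ T : ℝ} {m m' : ℕ} (hm : 1 ≤ m) (hm' : 1 ≤ m') (hδ : 0 < Real.sin δ)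
    (hT : 2 * Real.pi / Real.sin δ ≤ 13 * T) (hT1 : 1 ≤ T) :
    ∫ x in (0:ℝ)..1, (∑ n ∈ Finset.Icc 1 m, kk δ (n / m) x) *
      (∑ n' ∈ Finset.Icc 1 m', kk δ (n' / m') x) ≤
      13 * T * (Nat.gcd m m') * (1 + Real.log (Nat.gcd m m')) +
        14 * Real.sqrt T * ((m : ℝ) * m') ^ 3 := by
  have hm0 : (0 : ℝ) < m := by exact_mod_cast hm
  have hm0' : (0 : ℝ) < m' := by exact_mod_cast hm'
  have hm1 : (1 : ℝ) ≤ m := by exact_mod_cast hm
  have hm1' : (1 : ℝ) ≤ m' := by exact_mod_cast hm'
  have hs : 0 < Real.sqrt T := Real.sqrt_pos.2 (by linarith)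
  have hsq : Real.sqrt T ^ 2 = T := Real.sq_sqrt (by linarith)
  have hr : ∀ n ∈ Finset.Icc 1 m, (0 : ℝ) < (n : ℝ) / m := fun n hn => by
    have : (0 : ℝ) < n := by exact_mod_cast (Finset.mem_Icc.1 hn).1
    positivity
  have hr' : ∀ n ∈ Finset.Icc 1 m', (0 : ℝ) < (n : ℝ) / m' := fun n hn => by
    have : (0 : ℝ) < n := by exact_mod_cast (Finset.mem_Icc.1 hn).1
    positivity
  have hsize : ∀ k n : ℕ, 1 ≤ k → 1 ≤ n →
      2 * Real.pi / ((n : ℝ) / k * Real.sin δ) ≤ 13 * T * k / n := by
    intro k n hk hn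
    have hk0 : (0 : ℝ) < k := by exact_mod_cast hk
    have hn0 : (0 : ℝ) < n := by exact_mod_cast hn
    have e : 2 * Real.pi / ((n : ℝ) / k * Real.sin δ) = 2 * Real.pi / Real.sin δ * (k / n) := by
      field_simp
    rw [e]
    calc 2 * Real.pi / Real.sin δ * ((k : ℝ) / n) ≤ 13 * T * (k / n) := by gcongr
      _ = 13 * T * k / n := by ring
  have hone : ∀ n ∈ Finset.Icc 1 m, ∀ n' ∈ Finset.Icc 1 m',
      ∫ x in (0:ℝ)..1, kk δ (n / m) x * kk δ (n' / m') x ≤
        (if n * m' = n' * m then 13 * T * m / n else 0) +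
          14 * Real.sqrt T * ((m : ℝ) * m') ^ 2 := by
    intro n hn n' hn'
    have hn1 := (Finset.mem_Icc.1 hn).1
    have hn1' := (Finset.mem_Icc.1 hn').1
    have hn0 : (1 : ℝ) ≤ n := by exact_mod_cast hn1
    have hn0' : (1 : ℝ) ≤ n' := by exact_mod_cast hn1'
    have hpos : 0 ≤ 14 * Real.sqrt T * ((m : ℝ) * m') ^ 2 := by positivity
    by_cases he : n * m' = n' * m
    · rw [if_pos he]
      have e1 : (n : ℝ) / m = n' / m' := by
        rw [div_eq_div_iff hm0.ne' hm0'.ne']
        exact_mod_cast he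
      have e2 : ∀ x, kk δ (n / m) x * kk δ (n' / m') x = kk δ ((n : ℝ) / m) x ^ 2 := by
        intro x
        rw [← e1]
        ring
      simp only [e2]
      have h3 := (int_kk_sq hδ (hr n hn)).trans (hsize m n hm hn1)
      linarith
    · rw [if_neg he, zero_add]
      have hne : (n : ℝ) / m ≠ n' / m' := by
        intro h
        rw [div_eq_div_iff hm0.ne' hm0'.ne'] at h
        exact he (by exact_mod_cast h)
      have h4 := int_kk_off (R := Real.sqrt T) (M := 13 * (m * m')) hδ (hr n hn) (hr' n' hn')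
        hne hs (by
          refine (hsize m n hm hn1).trans ?_
          rw [hsq, div_le_iff₀ (by linarith)]
          have : 13 * T * m ≤ 13 * T * m * (m' * n) := by
            refine le_mul_of_one_le_right (by positivity) ?_
            nlinarith
          nlinarith) (by
          refine (hsize m' n' hm' hn1').trans ?_
          rw [hsq, div_le_iff₀ (by linarith)]
          have : 13 * T * m' ≤ 13 * T * m' * (m * n') := by
            refine le_mul_of_one_le_right (by positivity) ?_
            nlinarith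
          nlinarith)
      refine h4.trans ?_
      have hD : 1 / ((m : ℝ) * m') ≤ |(n : ℝ) / m - n' / m'| := by
        have e3 : (n : ℝ) / m - n' / m' = ((n * m' : ℤ) - (n' * m : ℤ) : ℤ) / ((m : ℝ) * m') := by
          push_cast
          field_simp
        rw [e3, abs_div, abs_of_pos (by positivity : (0:ℝ) < (m : ℝ) * m')]
        gcongr
        have h5 : ((n * m' : ℤ) - (n' * m : ℤ)) ≠ 0 := by
          intro h
          apply he
          have : (n * m' : ℤ) = (n' * m : ℤ) := by linarith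
          exact_mod_cast this
        have h6 : 1 ≤ |((n * m' : ℤ) - (n' * m : ℤ))| := Int.one_le_abs h5
        exact_mod_cast h6
      have hD2 : 1 / |(n : ℝ) / m - n' / m'| ≤ (m : ℝ) * m' := by
        rw [div_le_iff₀ (lt_of_lt_of_le (by positivity) hD)]
        rw [div_le_iff₀ (by positivity)] at hD
        linarith
      calc 1 / |(n : ℝ) / m - n' / m'| * ((13 * (m * m') + 1) * Real.sqrt T)
          ≤ (m : ℝ) * m' * ((13 * (m * m') + m * m') * Real.sqrt T) := by
            gcongr
            nlinarith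
        _ = 14 * Real.sqrt T * ((m : ℝ) * m') ^ 2 := by ring
  have e0 : ∀ x, (∑ n ∈ Finset.Icc 1 m, kk δ (n / m) x) *
      (∑ n' ∈ Finset.Icc 1 m', kk δ (n' / m') x) =
      ∑ n ∈ Finset.Icc 1 m, ∑ n' ∈ Finset.Icc 1 m', kk δ (n / m) x * kk δ (n' / m') x :=
    fun x => Finset.sum_mul_sum _ _ _ _
  simp only [e0]
  have hci : ∀ n ∈ Finset.Icc 1 m, ∀ n' ∈ Finset.Icc 1 m',
      IntervalIntegrable (fun x => kk δ (n / m) x * kk δ (n' / m') x) volume 0 1 :=
    fun n hn n' hn' => ((kk_cont hδ (hr n hn)).mul (kk_cont hδ (hr' n' hn'))).intervalIntegrable _ _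
  have hci2 : ∀ n ∈ Finset.Icc 1 m, IntervalIntegrable (fun x => ∑ n' ∈ Finset.Icc 1 m',
      kk δ (n / m) x * kk δ (n' / m') x) volume 0 1 := fun n hn =>
    (continuous_finsetSum _ fun n' hn' =>
      (kk_cont hδ (hr n hn)).mul (kk_cont hδ (hr' n' hn'))).intervalIntegrable _ _
  rw [intervalIntegral.integral_finsetSum hci2]
  have e1 : ∀ n ∈ Finset.Icc 1 m, ∫ x in (0:ℝ)..1, ∑ n' ∈ Finset.Icc 1 m',
      kk δ (n / m) x * kk δ (n' / m') x =
      ∑ n' ∈ Finset.Icc 1 m', ∫ x in (0:ℝ)..1, kk δ (n / m) x * kk δ (n' / m') x :=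
    fun n hn => intervalIntegral.integral_finsetSum fun n' hn' => hci n hn n' hn'
  rw [Finset.sum_congr rfl e1]
  calc ∑ n ∈ Finset.Icc 1 m, ∑ n' ∈ Finset.Icc 1 m',
        ∫ x in (0:ℝ)..1, kk δ (n / m) x * kk δ (n' / m') x
      ≤ ∑ n ∈ Finset.Icc 1 m, ∑ n' ∈ Finset.Icc 1 m',
        ((if n * m' = n' * m then 13 * T * m / n else 0) +
          14 * Real.sqrt T * ((m : ℝ) * m') ^ 2) :=
        Finset.sum_le_sum fun n hn => Finset.sum_le_sum fun n' hn' => hone n hn n' hn'
    _ = (∑ n ∈ Finset.Icc 1 m, ∑ n' ∈ Finset.Icc 1 m',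
        (if n * m' = n' * m then 13 * T * m / n else 0)) +
          14 * Real.sqrt T * ((m : ℝ) * m') ^ 3 := by
        simp only [Finset.sum_add_distrib, Finset.sum_const, Nat.card_Icc, nsmul_eq_mul,
          Nat.add_sub_cancel]
        ring
    _ ≤ _ := by
        have := diag_le (m' := m') hm (c := 13 * T) (by positivity)
        linarith

end Pool.Agent.Lib.MP_6bc78b_nt.GP.G11Z
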