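import Pool.Agent.Lib.MP_6bc78b_nt.GP.H2.Zn1
import Pool.Agent.Lib.MP_6bc78b_nt.GP.H2.Zn3

/-! Project GP11, row ZNEG (helper2), part 4: the bound of `Φ`. -/

set_option autoImplicit false

open Complex Filter Topology MeasureTheory Set
open scoped ENNReal

namespace Pool.Agent.Lib.MP_6bc78b_nt.GP.G11Z

open Pool.Agent.Lib.MP_6bc78b_nt.GP.G11

/-- the sum over the fractions with denominator `m` -/
noncomputable def qm (δ : ℝ) (m : ℕ) (x : ℝ) : ℝ := ∑ n ∈ Finset.Icc 1 m, kk δ (n / m) x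

lemma qm_nonneg (δ : ℝ) (m : ℕ) (x : ℝ) : 0 ≤ qm δ m x :=
  Finset.sum_nonneg fun _ _ => kk_nonneg _ _ _

lemma qm_cont {δ : ℝ} (hδ : 0 < Real.sin δ) {m : ℕ} (hm : 1 ≤ m) : Continuous (qm δ m) := by
  unfold qm
  refine continuous_finsetSum _ fun n hn => kk_cont hδ ?_
  have h1 : (0 : ℝ) < n := by exact_mod_cast (Finset.mem_Icc.1 hn).1
  have h2 : (0 : ℝ) < m := by exact_mod_cast hm
  positivity

/-- the poles of `Φ` -/
noncomputable def QQ (S : Finset ℕ) (a : ℕ → ℂ) (δ x : ℝ) : ℝ := ∑ m ∈ S, ‖a m‖ / m * qm δ m x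

lemma zr_eq (u δ : ℝ) : zr u δ =
    2 * Real.pi * I * (((Real.exp u : ℝ) : ℂ) * Complex.exp (-(δ * I))) := by
  unfold zr
  rw [sub_eq_add_neg, Complex.exp_add, Complex.ofReal_exp]

lemma ray_re (x δ : ℝ) : ((x : ℂ) * Complex.exp (-(δ * I))).re = x * Real.cos δ := by
  have e1 : Complex.exp (-(δ * I)) = (Real.cos δ : ℂ) - (Real.sin δ : ℂ) * I := by
    rw [← neg_mul, Complex.exp_mul_I, Complex.cos_neg, Complex.sin_neg, Complex.ofReal_cos,
      Complex.ofReal_sin]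
    ring
  rw [e1]
  simp only [Complex.mul_re, Complex.mul_im, Complex.sub_re, Complex.sub_im, Complex.ofReal_re,
    Complex.ofReal_im, Complex.I_re, Complex.I_im]
  ring

lemma ray_im (x δ : ℝ) : ((x : ℂ) * Complex.exp (-(δ * I))).im = -(x * Real.sin δ) := by
  have e1 : Complex.exp (-(δ * I)) = (Real.cos δ : ℂ) - (Real.sin δ : ℂ) * I := by
    rw [← neg_mul, Complex.exp_mul_I, Complex.cos_neg, Complex.sin_neg, Complex.ofReal_cos,
      Complex.ofReal_sin]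
    ring
  rw [e1]
  simp only [Complex.mul_re, Complex.mul_im, Complex.sub_re, Complex.sub_im, Complex.ofReal_re,
    Complex.ofReal_im, Complex.I_re, Complex.I_im]
  ring

/-- the bound of `Φ` by its poles -/
lemma Ph_le {S : Finset ℕ} {a : ℕ → ℂ} {δ x : ℝ} (hS : ∀ m ∈ S, 1 ≤ m) (hδ : 0 < Real.sin δ)
    (hc : 0 ≤ Real.cos δ) (hx : 0 < x) (hx1 : x ≤ 1) :
    ‖Ph S a (2 * Real.pi * I * ((x : ℂ) * Complex.exp (-(δ * I))))‖ ≤
      3 * ∑ m ∈ S, ‖a m‖ + 1 / 4 * QQ S a δ x := by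
  unfold Ph QQ
  rw [Finset.mul_sum, Finset.mul_sum, ← Finset.sum_add_distrib]
  refine (norm_sum_le _ _).trans (Finset.sum_le_sum fun m hm => ?_)
  have hm1 := hS m hm
  have hm0 : (0 : ℝ) < m := by exact_mod_cast hm1
  rw [norm_mul]
  have e1 : (m : ℂ) * (2 * Real.pi * I * ((x : ℂ) * Complex.exp (-(δ * I)))) =
      2 * Real.pi * I * (m * ((x : ℂ) * Complex.exp (-(δ * I)))) := by ring
  rw [e1]
  have hre : ((m : ℂ) * ((x : ℂ) * Complex.exp (-(δ * I)))).re = m * (x * Real.cos δ) := by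
    rw [← ray_re x δ]
    simp
  have him : ((m : ℂ) * ((x : ℂ) * Complex.exp (-(δ * I)))).im = m * (-(x * Real.sin δ)) := by
    rw [← ray_im x δ]
    simp
  have h1 := ph1_le (m := m) (ζ := m * ((x : ℂ) * Complex.exp (-(δ * I))))
    (by rw [hre]; positivity) (by
      rw [hre]
      have : x * Real.cos δ ≤ 1 := by nlinarith [Real.cos_le_one δ]
      nlinarith) (by
      rw [him]
      have : 0 < x * Real.sin δ := by positivity
      nlinarith)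
  have h2 : ∑ n ∈ Finset.Icc 1 m, 1 / (4 * ‖(m : ℂ) * ((x : ℂ) * Complex.exp (-(δ * I))) - n‖) =
      1 / (4 * m) * qm δ m x := by
    unfold qm
    rw [Finset.mul_sum]
    refine Finset.sum_congr rfl fun n _ => ?_
    unfold kk
    have hmC : (m : ℂ) ≠ 0 := by exact_mod_cast hm0.ne'
    have e2 : (m : ℂ) * ((x : ℂ) * Complex.exp (-(δ * I))) - n =
        m * ((x : ℂ) * Complex.exp (-(δ * I)) - ((n / m : ℝ) : ℂ)) := by
      push_cast
      field_simp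
    rw [e2, norm_mul, Complex.norm_natCast]
    rw [div_mul_div_comm]
    ring_nf
  rw [h2] at h1
  calc ‖a m‖ * ‖ph1 (2 * Real.pi * I * (m * ((x : ℂ) * Complex.exp (-(δ * I)))))‖
      ≤ ‖a m‖ * (3 + 1 / (4 * m) * qm δ m x) := by gcongr
    _ = 3 * ‖a m‖ + 1 / 4 * (‖a m‖ / m * qm δ m x) := by
      field_simp

/-- the bound of `Φ` near `0` -/
lemma Ph_le0 {S : Finset ℕ} {a : ℕ → ℂ} {δ x N : ℝ} (hS : ∀ m ∈ S, 1 ≤ m ∧ (m : ℝ) ≤ N)
    (hδ : 0 < Real.sin δ) (hc : 0 ≤ Real.cos δ) (hx : 0 < x) (hx1 : N * x ≤ 1 / 2) :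
    ‖Ph S a (2 * Real.pi * I * ((x : ℂ) * Complex.exp (-(δ * I))))‖ ≤ 3 * ∑ m ∈ S, ‖a m‖ := by
  have hpi := Real.pi_pos
  unfold Ph
  rw [Finset.mul_sum]
  refine (norm_sum_le _ _).trans (Finset.sum_le_sum fun m hm => ?_)
  obtain ⟨hm1, hmN⟩ := hS m hm
  have hm0 : (0 : ℝ) < m := by exact_mod_cast hm1
  rw [norm_mul]
  have hre : ∀ z : ℂ, (2 * Real.pi * I * z).re = -(2 * Real.pi * z.im) := fun z => by
    simp [Complex.mul_re, Complex.mul_im]
  have him : ∀ z : ℂ, (2 * Real.pi * I * z).im = 2 * Real.pi * z.re := fun z => by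
    simp [Complex.mul_re, Complex.mul_im]
  have e1 : (m : ℂ) * (2 * Real.pi * I * ((x : ℂ) * Complex.exp (-(δ * I)))) =
      2 * Real.pi * I * (m * ((x : ℂ) * Complex.exp (-(δ * I)))) := by ring
  have hre2 : ((m : ℂ) * ((x : ℂ) * Complex.exp (-(δ * I)))).re = m * (x * Real.cos δ) := by
    rw [← ray_re x δ]
    simp
  have him2 : ((m : ℂ) * ((x : ℂ) * Complex.exp (-(δ * I)))).im = m * (-(x * Real.sin δ)) := by
    rw [← ray_im x δ]
    simp
  have h3 : ‖ph1 (m * (2 * Real.pi * I * ((x : ℂ) * Complex.exp (-(δ * I)))))‖ ≤ 3 := by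
    rw [e1]
    apply ph1_le_three
    · rw [hre, him2]
      have : 0 ≤ m * (x * Real.sin δ) := by positivity
      nlinarith
    · rw [him, hre2, abs_of_nonneg (by positivity)]
      have h4 : (m : ℝ) * (x * Real.cos δ) ≤ 1 / 2 := by
        have hN0 : 0 ≤ N := (Nat.cast_nonneg m).trans hmN
        calc (m : ℝ) * (x * Real.cos δ) ≤ N * (x * 1) := by
              gcongr
              exact Real.cos_le_one δ
          _ ≤ 1 / 2 := by simpa using hx1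
      nlinarith
  calc ‖a m‖ * ‖ph1 (m * (2 * Real.pi * I * ((x : ℂ) * Complex.exp (-(δ * I)))))‖
      ≤ ‖a m‖ * 3 := by gcongr
    _ = 3 * ‖a m‖ := mul_comm _ _

lemma QQ_cont {S : Finset ℕ} {a : ℕ → ℂ} {δ : ℝ} (hS : ∀ m ∈ S, 1 ≤ m) (hδ : 0 < Real.sin δ) :
    Continuous (QQ S a δ) := by
  unfold QQ
  exact continuous_finsetSum _ fun m hm => continuous_const.mul (qm_cont hδ (hS m hm))

lemma Rf_nonneg (S : Finset ℕ) (a : ℕ → ℂ) : 0 ≤ Rf S a := by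
  unfold Rf
  exact Finset.sum_nonneg fun m _ => Finset.sum_nonneg fun m' _ => by positivity

/-- `(∑ |a|)² ≤ N² Rf` -/
lemma sum_sq_le {S : Finset ℕ} {a : ℕ → ℂ} {N : ℝ} (hS : ∀ m ∈ S, 1 ≤ m ∧ (m : ℝ) ≤ N) :
    (∑ m ∈ S, ‖a m‖) ^ 2 ≤ N ^ 2 * Rf S a := by
  unfold Rf
  rw [sq, Finset.sum_mul_sum, Finset.mul_sum]
  refine Finset.sum_le_sum fun m hm => ?_
  rw [Finset.mul_sum]
  refine Finset.sum_le_sum fun m' hm' => ?_
  obtain ⟨h1, h2⟩ := hS m hm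
  obtain ⟨h1', h2'⟩ := hS m' hm'
  have hl0 : 0 < Nat.lcm m m' := Nat.lcm_pos h1 h1'
  have hl : (Nat.lcm m m' : ℝ) ≤ N ^ 2 := by
    have h3 : (Nat.lcm m m' : ℝ) ≤ m * m' := by
      exact_mod_cast Nat.le_of_dvd (Nat.mul_pos h1 h1') (Nat.lcm_dvd_mul m m')
    calc (Nat.lcm m m' : ℝ) ≤ m * m' := h3
      _ ≤ N * N := by
        gcongr
        exact le_trans (Nat.cast_nonneg m) h2
      _ = N ^ 2 := by ring
  have hl0' : (0 : ℝ) < Nat.lcm m m' := by exact_mod_cast hl0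
  calc ‖a m‖ * ‖a m'‖ = (Nat.lcm m m' : ℝ) * (‖a m‖ * ‖a m'‖ / (Nat.lcm m m' : ℝ)) := by
        field_simp
    _ ≤ N ^ 2 * (‖a m‖ * ‖a m'‖ / (Nat.lcm m m' : ℝ)) := by gcongr

/-- the mean square of the poles -/
lemma int_QQ {S : Finset ℕ} {a : ℕ → ℂ} {δ T N ll : ℝ} (hS : ∀ m ∈ S, 1 ≤ m ∧ (m : ℝ) ≤ N)
    (hδ : 0 < Real.sin δ) (hT : 2 * Real.pi / Real.sin δ ≤ 13 * T) (hT1 : 1 ≤ T)
    (hN : 1 ≤ N) (hll : Real.log N ≤ ll) :
    ∫ x in (0:ℝ)..1, QQ S a δ x ^ 2 ≤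
      Rf S a * (13 * T * (1 + ll) + 14 * Real.sqrt T * N ^ 6) := by
  have e1 : ∀ x, QQ S a δ x ^ 2 = ∑ m ∈ S, ∑ m' ∈ S,
      ‖a m‖ / m * (‖a m'‖ / m') * (qm δ m x * qm δ m' x) := by
    intro x
    unfold QQ
    rw [sq, Finset.sum_mul_sum]
    refine Finset.sum_congr rfl fun m _ => Finset.sum_congr rfl fun m' _ => ?_
    ring
  simp only [e1]
  have hci : ∀ m ∈ S, ∀ m' ∈ S, Continuous (fun x =>
      ‖a m‖ / m * (‖a m'‖ / m') * (qm δ m x * qm δ m' x)) := fun m hm m' hm' =>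
    continuous_const.mul ((qm_cont hδ (hS m hm).1).mul (qm_cont hδ (hS m' hm').1))
  have hci2 : ∀ m ∈ S, IntervalIntegrable (fun x => ∑ m' ∈ S,
      ‖a m‖ / m * (‖a m'‖ / m') * (qm δ m x * qm δ m' x)) volume 0 1 := fun m hm =>
    (continuous_finsetSum _ fun m' hm' => hci m hm m' hm').intervalIntegrable _ _
  rw [intervalIntegral.integral_finsetSum hci2]
  unfold Rf
  rw [Finset.sum_mul]
  refine Finset.sum_le_sum fun m hm => ?_
  rw [intervalIntegral.integral_finsetSum fun m' hm' => (hci m hm m' hm').intervalIntegrable _ _,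
    Finset.sum_mul]
  refine Finset.sum_le_sum fun m' hm' => ?_
  obtain ⟨h1, h2⟩ := hS m hm
  obtain ⟨h1', h2'⟩ := hS m' hm'
  have hm0 : (0 : ℝ) < m := by exact_mod_cast h1
  have hm0' : (0 : ℝ) < m' := by exact_mod_cast h1'
  rw [intervalIntegral.integral_const_mul]
  have h3 := int_pair h1 h1' hδ hT hT1
  have hg0 : 0 < Nat.gcd m m' := Nat.gcd_pos_of_pos_left _ h1
  have hg1 : (1 : ℝ) ≤ Nat.gcd m m' := by exact_mod_cast hg0
  have hgN : (Nat.gcd m m' : ℝ) ≤ N := by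
    have : (Nat.gcd m m' : ℝ) ≤ m := by exact_mod_cast Nat.gcd_le_left _ h1
    linarith
  have hlg : Real.log (Nat.gcd m m') ≤ ll := (Real.log_le_log (by positivity) hgN).trans hll
  have hl0 : (0 : ℝ) < Nat.lcm m m' := by exact_mod_cast Nat.lcm_pos h1 h1'
  have hgl : (Nat.gcd m m' : ℝ) * Nat.lcm m m' = m * m' := by
    exact_mod_cast Nat.gcd_mul_lcm m m'
  have hll0 : 0 ≤ ll := (Real.log_nonneg hN).trans hll
  have hmm : (m : ℝ) * m' ≤ N ^ 2 := by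
    calc (m : ℝ) * m' ≤ N * N := by gcongr
      _ = N ^ 2 := by ring
  have hlm : (Nat.lcm m m' : ℝ) ≤ m * m' := by
    exact_mod_cast Nat.le_of_dvd (Nat.mul_pos h1 h1') (Nat.lcm_dvd_mul m m')
  calc ‖a m‖ / m * (‖a m'‖ / m') * ∫ x in (0:ℝ)..1, qm δ m x * qm δ m' x
      ≤ ‖a m‖ / m * (‖a m'‖ / m') * (13 * T * (Nat.gcd m m') * (1 + Real.log (Nat.gcd m m')) +
        14 * Real.sqrt T * ((m : ℝ) * m') ^ 3) := by
        gcongr
        exact h3
    _ ≤ ‖a m‖ / m * (‖a m'‖ / m') * (13 * T * (Nat.gcd m m') * (1 + ll) +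
        14 * Real.sqrt T * ((m : ℝ) * m') ^ 3) := by gcongr
    _ = ‖a m‖ * ‖a m'‖ / (Nat.lcm m m' : ℝ) * (13 * T * (1 + ll) +
        14 * Real.sqrt T * (((m : ℝ) * m') ^ 2 * Nat.lcm m m')) := by
        have e2 : (Nat.gcd m m' : ℝ) = m * m' / Nat.lcm m m' := by
          rw [← hgl]
          field_simp
        rw [e2]
        field_simp
    _ ≤ ‖a m‖ * ‖a m'‖ / (Nat.lcm m m' : ℝ) * (13 * T * (1 + ll) +
        14 * Real.sqrt T * N ^ 6) := by
        have h5 : ((m : ℝ) * m') ^ 2 * Nat.lcm m m' ≤ N ^ 6 := by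
          calc ((m : ℝ) * m') ^ 2 * Nat.lcm m m' ≤ (N ^ 2) ^ 2 * N ^ 2 := by
                gcongr
                exact hlm.trans hmm
            _ = N ^ 6 := by ring
        gcongr

end Pool.Agent.Lib.MP_6bc78b_nt.GP.G11Z
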