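import Pool.Agent.Lib.MP_6bc78b_nt.GP.H2.Zn4

/-! Project GP11, row ZNEG (helper2): the frequencies `u ≤ 0`. -/

set_option autoImplicit false

open Complex Filter Topology MeasureTheory Set
open scoped ENNReal

namespace Pool.Agent.Lib.MP_6bc78b_nt.GP.G11Z

open Pool.Agent.Lib.MP_6bc78b_nt.GP.G11

/-- the mean square of the bound -/
lemma int_H {S : Finset ℕ} {a : ℕ → ℂ} {δ T N ll : ℝ} (hS : ∀ m ∈ S, 1 ≤ m ∧ (m : ℝ) ≤ N)
    (hδ : 0 < Real.sin δ) (hT : 2 * Real.pi / Real.sin δ ≤ 13 * T) (hT1 : 1 ≤ T)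
    (hN : 1 ≤ N) (hll : Real.log N ≤ ll) (hN6 : N ^ 6 ≤ Real.sqrt T) (hl1 : 1 ≤ ll) :
    ∫ x in (0:ℝ)..1, (3 * ∑ m ∈ S, ‖a m‖ + 1 / 4 * QQ S a δ x) ^ 2 ≤ 24 * ll * T * Rf S a := by
  have hc := QQ_cont (a := a) (fun m hm => (hS m hm).1) hδ
  have h1 := int_QQ (a := a) hS hδ hT hT1 hN hll
  have hA := sum_sq_le (a := a) hS
  have hR := Rf_nonneg S a
  have hs : Real.sqrt T ^ 2 = T := Real.sq_sqrt (by linarith)
  have hs1 : 1 ≤ Real.sqrt T := Real.one_le_sqrt.2 hT1
  have h2 : ∫ x in (0:ℝ)..1, (3 * ∑ m ∈ S, ‖a m‖ + 1 / 4 * QQ S a δ x) ^ 2 ≤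
      ∫ x in (0:ℝ)..1, (18 * (∑ m ∈ S, ‖a m‖) ^ 2 + 1 / 8 * QQ S a δ x ^ 2) := by
    refine intervalIntegral.integral_mono_on zero_le_one
      (Continuous.intervalIntegrable (by fun_prop) _ _)
      (Continuous.intervalIntegrable (by fun_prop) _ _) fun x _ => ?_
    nlinarith [sq_nonneg (3 * ∑ m ∈ S, ‖a m‖ - 1 / 4 * QQ S a δ x)]
  rw [intervalIntegral.integral_add (Continuous.intervalIntegrable (by fun_prop) _ _)
    (Continuous.intervalIntegrable (by fun_prop) _ _), intervalIntegral.integral_const,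
    intervalIntegral.integral_const_mul] at h2
  simp only [sub_zero, smul_eq_mul, one_mul] at h2
  have hN2 : N ^ 2 ≤ T := by
    have h3 : N ^ 2 ≤ N ^ 6 := pow_le_pow_right₀ hN (by norm_num)
    nlinarith
  have h4 : Real.sqrt T * N ^ 6 ≤ T := by nlinarith
  have h5 : 18 * (∑ m ∈ S, ‖a m‖) ^ 2 ≤ 18 * (T * Rf S a) := by
    have : N ^ 2 * Rf S a ≤ T * Rf S a := by gcongr
    linarith
  have h6 : Rf S a * (13 * T * (1 + ll) + 14 * Real.sqrt T * N ^ 6) ≤
      Rf S a * (13 * T * (1 + ll) + 14 * T) := mul_le_mul_of_nonneg_left (by linarith) hR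
  have h7 : 0 ≤ T * Rf S a := by positivity
  have h8 : T * Rf S a ≤ ll * (T * Rf S a) := le_mul_of_one_le_left h7 hl1
  calc _ ≤ _ := h2
    _ ≤ 18 * (T * Rf S a) + 1 / 8 * (Rf S a * (13 * T * (1 + ll) + 14 * T)) := by
        gcongr
        exact h1.trans h6
    _ ≤ 24 * ll * T * Rf S a := by nlinarith

/-- `ln` bounds for the weight -/
lemma wt_le {T u U : ℝ} (hL : 1 ≤ Real.log T) (hu : |u| ≤ U) (hU : 1 ≤ U) :
    wt T u ≤ 2 * Real.log T * U ^ 4 := by
  unfold wt
  have h1 : u ^ 2 ≤ U ^ 2 := sq_le_sq' (by linarith [abs_le.1 hu]) (abs_le.1 hu).2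
  have h2 : u ^ 4 ≤ U ^ 4 := by
    calc u ^ 4 = (u ^ 2) ^ 2 := by ring
      _ ≤ (U ^ 2) ^ 2 := by gcongr
      _ = U ^ 4 := by ring
  have h3 : U ^ 2 ≤ U ^ 4 := pow_le_pow_right₀ hU (by norm_num)
  have h4 : u ^ 4 / Real.log T ≤ U ^ 4 := by
    rw [div_le_iff₀ (by linarith)]
    nlinarith [pow_nonneg (by linarith : (0:ℝ) ≤ U) 4]
  have h5 : Real.log T * u ^ 2 ≤ Real.log T * U ^ 4 := by
    gcongr
    linarith
  have h6 : U ^ 4 ≤ Real.log T * U ^ 4 := le_mul_of_one_le_left (by positivity) hL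
  linarith

lemma wt_nonneg {T : ℝ} (hL : 0 ≤ Real.log T) (u : ℝ) : 0 ≤ wt T u := by
  unfold wt
  positivity

lemma wt_exp {T u : ℝ} (hL : 1 ≤ Real.log T) (hu : u ≤ 0) :
    Real.exp u * wt T u ≤ 400 * Real.log T * Real.exp (1 / 2 * u) := by
  set y : ℝ := -u / 2 with hy
  have hy0 : 0 ≤ y := by
    rw [hy]
    linarith
  have e1 : Real.exp u = Real.exp (1 / 2 * u) * Real.exp (-y) := by
    rw [← Real.exp_add]
    congr 1
    rw [hy]
    ring
  have h2 : y ^ 2 ≤ 2 * Real.exp y := by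
    have := Real.pow_div_factorial_le_exp y hy0 2
    norm_num [Nat.factorial] at this
    linarith
  have h4 : y ^ 4 ≤ 24 * Real.exp y := by
    have := Real.pow_div_factorial_le_exp y hy0 4
    norm_num [Nat.factorial] at this
    linarith
  have hu2 : u ^ 2 = 4 * y ^ 2 := by
    rw [hy]
    ring
  have hu4 : u ^ 4 = 16 * y ^ 4 := by
    rw [hy]
    ring
  have hey : Real.exp (-y) * Real.exp y = 1 := by
    rw [← Real.exp_add]
    simp
  have h5 : wt T u ≤ 400 * Real.log T * Real.exp y := by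
    unfold wt
    rw [hu2, hu4]
    have h6 : 16 * y ^ 4 / Real.log T ≤ 384 * Real.exp y * Real.log T := by
      rw [div_le_iff₀ (by linarith)]
      have h7 : 1 ≤ Real.log T * Real.log T := by nlinarith
      have h8 : 384 * Real.exp y ≤ 384 * Real.exp y * (Real.log T * Real.log T) :=
        le_mul_of_one_le_right (by positivity) h7
      nlinarith
    have h9 : Real.log T * (4 * y ^ 2) ≤ Real.log T * (8 * Real.exp y) :=
      mul_le_mul_of_nonneg_left (by linarith) (by linarith)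
    nlinarith
  rw [e1]
  calc Real.exp (1 / 2 * u) * Real.exp (-y) * wt T u
      ≤ Real.exp (1 / 2 * u) * Real.exp (-y) * (400 * Real.log T * Real.exp y) := by gcongr
    _ = 400 * Real.log T * Real.exp (1 / 2 * u) * (Real.exp (-y) * Real.exp y) := by ring
    _ = 400 * Real.log T * Real.exp (1 / 2 * u) := by rw [hey, mul_one]

/-- **ZNEG.** -/
theorem zneg : ZNEGStatement := by
  have hlog : Tendsto Real.log atTop atTop := Real.tendsto_log_atTop
  have hll : Tendsto (fun T : ℝ => Real.log (Real.log T)) atTop atTop := hlog.comp hlog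
  have ho : ∀ n : ℕ, ∀ᶠ T : ℝ in atTop, Real.log (Real.log T) ^ n ≤ 1 / 12 * Real.log T := by
    intro n
    have h1 := (Real.isLittleO_pow_log_id_atTop (n := n)).bound (by norm_num : (0:ℝ) < 1 / 12)
    have h2 := hlog.eventually h1
    filter_upwards [h2, hlog.eventually_ge_atTop 1] with T h3 h4
    simp only [id, Real.norm_eq_abs] at h3
    rw [abs_of_pos (by linarith : (0:ℝ) < Real.log T)] at h3
    exact (le_abs_self _).trans h3
  obtain ⟨T1, hT1⟩ := eventually_atTop.1 ((ho 6).and ((ho 30).and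
    ((hll.eventually_ge_atTop 1).and (hlog.eventually_ge_atTop 1))))
  refine ⟨13000, max T1 11, by norm_num, lt_max_of_lt_right (by norm_num), ?_⟩
  intro T δ S a hT hδ1 hδ2 hS
  obtain ⟨g6, g30, hl1, hL1⟩ := hT1 T ((le_max_left _ _).trans hT)
  have hT11 : 11 ≤ T := (le_max_right _ _).trans hT
  have hTp : 0 < T := by linarith
  have hpi := Real.pi_pos
  have hpi3 := Real.pi_gt_three
  have hpi4 := Real.pi_lt_d2
  set L := Real.log T with hL
  set l := Real.log L with hl
  have hδ0 : 0 < δ := lt_of_lt_of_le (by positivity) hδ1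
  have hδ5 : δ ≤ 1 / 5 := by
    refine hδ2.trans ?_
    rw [div_le_iff₀ hTp]
    linarith
  have hsin1 : 2 / Real.pi * δ ≤ Real.sin δ := Real.mul_le_sin hδ0.le (by linarith)
  have hsin : 0 < Real.sin δ := lt_of_lt_of_le (by positivity) hsin1
  have hcos : 0 ≤ Real.cos δ := Real.cos_nonneg_of_neg_pi_div_two_le_of_le (by linarith)
    (by linarith)
  have hs13 : 2 * Real.pi / Real.sin δ ≤ 13 * T := by
    rw [div_le_iff₀ hsin]
    have h1 : 2 / Real.pi * (1 / T) ≤ Real.sin δ := le_trans (by gcongr) hsin1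
    have h2 : 13 * T * (2 / Real.pi * (1 / T)) ≤ 13 * T * Real.sin δ := by gcongr
    have h3 : 13 * T * (2 / Real.pi * (1 / T)) = 26 / Real.pi := by
      field_simp
      norm_num
    rw [h3] at h2
    refine le_trans ?_ h2
    rw [le_div_iff₀ hpi]
    nlinarith
  set N := Real.exp (l ^ 6) with hN
  have hl6 : 1 ≤ l ^ 6 := one_le_pow₀ hl1
  have hN1 : 1 ≤ N := Real.one_le_exp (by linarith)
  have hN6 : N ^ 6 ≤ Real.sqrt T := by
    apply Real.le_sqrt_of_sq_le
    rw [hN, ← Real.exp_nat_mul, ← Real.exp_nat_mul, ← Real.le_log_iff_exp_le hTp]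
    push_cast
    linarith
  have hlN : Real.log N ≤ l ^ 6 := by rw [hN, Real.log_exp]
  have hR := Rf_nonneg S a
  have hH := int_H (a := a) hS hsin hs13 (by linarith) hN1 hlN hN6 hl6
  have hN2T : N ^ 2 ≤ T := by
    have h3 : N ^ 2 ≤ N ^ 6 := pow_le_pow_right₀ hN1 (by norm_num)
    have h4 : Real.sqrt T ≤ T := by
      have : Real.sqrt T ^ 2 = T := Real.sq_sqrt hTp.le
      have : 1 ≤ Real.sqrt T := Real.one_le_sqrt.2 (by linarith)
      nlinarith
    linarith
  set A := ∑ m ∈ S, ‖a m‖ with hA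
  have hA0 : 0 ≤ A := Finset.sum_nonneg fun m _ => norm_nonneg _
  have hA2 : A ^ 2 ≤ T * Rf S a := (sum_sq_le (a := a) hS).trans (by gcongr)
  set U := 3 * l ^ 6 with hU
  have hU1 : 1 ≤ U := by linarith
  -- the two parts
  have hsplit : Iic (0 : ℝ) ⊆ Icc (-U) 0 ∪ Iic (-U) := by
    intro u hu
    rcases le_total (-U) u with h | h
    · exact Or.inl ⟨h, hu⟩
    · exact Or.inr h
  have hcontH : Continuous fun x : ℝ => (3 * A + 1 / 4 * QQ S a δ x) ^ 2 := by
    have := QQ_cont (a := a) (fun m hm => (hS m hm).1) hsin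
    fun_prop
  have hQ0 : ∀ x, 0 ≤ QQ S a δ x := fun x => Finset.sum_nonneg fun m _ =>
    mul_nonneg (by positivity) (qm_nonneg _ _ _)
  -- part one
  have p1 : ∫⁻ u in Icc (-U) 0, ENNReal.ofReal (‖Ph S a (zr u δ)‖ ^ 2 * Real.exp u * wt T u) ≤
      ENNReal.ofReal (5000 * T * L ^ 3 * Rf S a) := by
    have q1 : ∀ u ∈ Icc (-U) (0:ℝ), ENNReal.ofReal (‖Ph S a (zr u δ)‖ ^ 2 * Real.exp u * wt T u) ≤
        ENNReal.ofReal (2 * L * U ^ 4) * (ENNReal.ofReal (|Real.exp u|) *
          ENNReal.ofReal ((3 * A + 1 / 4 * QQ S a δ (Real.exp u)) ^ 2)) := by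
      intro u hu
      have he : 0 < Real.exp u := Real.exp_pos u
      rw [abs_of_pos he, ← ENNReal.ofReal_mul he.le, ← ENNReal.ofReal_mul (by positivity)]
      apply ENNReal.ofReal_le_ofReal
      have h1 := Ph_le (a := a) (fun m hm => (hS m hm).1) hsin hcos he (Real.exp_le_one_iff.2 hu.2)
      rw [← zr_eq] at h1
      have h2 : ‖Ph S a (zr u δ)‖ ^ 2 ≤ (3 * A + 1 / 4 * QQ S a δ (Real.exp u)) ^ 2 := by
        gcongr
      have h3 : wt T u ≤ 2 * L * U ^ 4 := wt_le hL1 (abs_le.2 ⟨hu.1, by linarith [hu.2]⟩) hU1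
      have h4 := wt_nonneg (T := T) (by linarith) u
      calc ‖Ph S a (zr u δ)‖ ^ 2 * Real.exp u * wt T u
          ≤ (3 * A + 1 / 4 * QQ S a δ (Real.exp u)) ^ 2 * Real.exp u * (2 * L * U ^ 4) := by
            gcongr
        _ = _ := by ring
    refine (setLIntegral_mono' measurableSet_Icc q1).trans ?_
    rw [lintegral_const_mul']
    · have q2 := lintegral_image_eq_lintegral_abs_deriv_mul (s := Icc (-U) (0:ℝ))
        (f := Real.exp) (f' := Real.exp) measurableSet_Icc
        (fun x _ => (Real.hasDerivAt_exp x).hasDerivWithinAt) Real.exp_injective.injOn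
        (fun x => ENNReal.ofReal ((3 * A + 1 / 4 * QQ S a δ x) ^ 2))
      rw [← q2]
      have q3 : Real.exp '' Icc (-U) 0 ⊆ Ioc 0 1 := by
        rintro _ ⟨u, hu, rfl⟩
        exact ⟨Real.exp_pos u, Real.exp_le_one_iff.2 hu.2⟩
      have q4 : ∫⁻ x in Real.exp '' Icc (-U) 0,
          ENNReal.ofReal ((3 * A + 1 / 4 * QQ S a δ x) ^ 2) ≤
          ENNReal.ofReal (24 * l ^ 6 * T * Rf S a) := by
        refine (lintegral_mono_set q3).trans ?_
        rw [← ofReal_integral_eq_lintegral_ofReal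
          (hcontH.continuousOn.integrableOn_Icc.mono_set Ioc_subset_Icc_self)
          (ae_of_all _ fun x => by positivity)]
        apply ENNReal.ofReal_le_ofReal
        rw [← intervalIntegral.integral_of_le zero_le_one]
        exact hH
      calc ENNReal.ofReal (2 * L * U ^ 4) * ∫⁻ x in Real.exp '' Icc (-U) 0,
            ENNReal.ofReal ((3 * A + 1 / 4 * QQ S a δ x) ^ 2)
          ≤ ENNReal.ofReal (2 * L * U ^ 4) * ENNReal.ofReal (24 * l ^ 6 * T * Rf S a) := by
            gcongr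
        _ = ENNReal.ofReal (2 * L * U ^ 4 * (24 * l ^ 6 * T * Rf S a)) := by
            rw [← ENNReal.ofReal_mul (by positivity)]
        _ ≤ ENNReal.ofReal (5000 * T * L ^ 3 * Rf S a) := by
            apply ENNReal.ofReal_le_ofReal
            have e3 : 2 * L * U ^ 4 * (24 * l ^ 6 * T * Rf S a) =
                3888 * (l ^ 30 * L * (T * Rf S a)) := by
              rw [hU]
              ring
            rw [e3]
            have h6 : l ^ 30 ≤ L := by linarith
            have h7 : 0 ≤ T * Rf S a := by positivity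
            have h8 : l ^ 30 * L * (T * Rf S a) ≤ L ^ 3 * (T * Rf S a) := by
              gcongr
              calc l ^ 30 * L ≤ L * L := by gcongr
                _ ≤ L * L * L := le_mul_of_one_le_right (by positivity) hL1
                _ = L ^ 3 := by ring
            have h9 : 0 ≤ L ^ 3 * (T * Rf S a) := by positivity
            nlinarith
    · exact ENNReal.ofReal_ne_top
  -- part two
  have p2 : ∫⁻ u in Iic (-U), ENNReal.ofReal (‖Ph S a (zr u δ)‖ ^ 2 * Real.exp u * wt T u) ≤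
      ENNReal.ofReal (8000 * T * L ^ 3 * Rf S a) := by
    have q1 : ∀ u ∈ Iic (-U), ENNReal.ofReal (‖Ph S a (zr u δ)‖ ^ 2 * Real.exp u * wt T u) ≤
        ENNReal.ofReal (3600 * L * (T * Rf S a)) * ENNReal.ofReal (Real.exp (1 / 2 * u)) := by
      intro u hu
      have hu' : u ≤ -U := hu
      have hu0 : u ≤ 0 := by linarith
      have he : 0 < Real.exp u := Real.exp_pos u
      rw [← ENNReal.ofReal_mul (by positivity)]
      apply ENNReal.ofReal_le_ofReal
      have hNx : N * Real.exp u ≤ 1 / 2 := by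
        rw [hN, ← Real.exp_add]
        have h1 : l ^ 6 + u ≤ -1 := by linarith
        have h2 : Real.exp (l ^ 6 + u) ≤ Real.exp (-1) := Real.exp_le_exp.2 h1
        have h3 : Real.exp (-1) ≤ 1 / 2 := by
          rw [Real.exp_neg, inv_eq_one_div]
          apply one_div_le_one_div_of_le (by norm_num)
          linarith [Real.add_one_le_exp (1 : ℝ)]
        linarith
      have h1 := Ph_le0 (a := a) hS hsin hcos he hNx
      rw [← zr_eq] at h1
      have h2 : ‖Ph S a (zr u δ)‖ ^ 2 ≤ 9 * (T * Rf S a) := by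
        calc ‖Ph S a (zr u δ)‖ ^ 2 ≤ (3 * A) ^ 2 := by gcongr
          _ = 9 * A ^ 2 := by ring
          _ ≤ 9 * (T * Rf S a) := by linarith
      have h3 := wt_exp (T := T) hL1 hu0
      have h4 := wt_nonneg (T := T) (by linarith) u
      calc ‖Ph S a (zr u δ)‖ ^ 2 * Real.exp u * wt T u
          = ‖Ph S a (zr u δ)‖ ^ 2 * (Real.exp u * wt T u) := by ring
        _ ≤ 9 * (T * Rf S a) * (400 * L * Real.exp (1 / 2 * u)) := by gcongr
        _ = _ := by ring
    refine (setLIntegral_mono' measurableSet_Iic q1).trans ?_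
    rw [lintegral_const_mul' _ _ ENNReal.ofReal_ne_top]
    have q2 : ∫⁻ u in Iic (-U), ENNReal.ofReal (Real.exp (1 / 2 * u)) ≤ ENNReal.ofReal 2 := by
      have q3 : Iic (-U) ⊆ Iic (0 : ℝ) := Iic_subset_Iic.2 (by linarith)
      refine (lintegral_mono_set q3).trans ?_
      rw [← ofReal_integral_eq_lintegral_ofReal
        (integrableOn_exp_mul_Iic (by norm_num : (0:ℝ) < 1 / 2) 0)
        (ae_of_all _ fun x => (Real.exp_pos _).le),
        integral_exp_mul_Iic (by norm_num : (0:ℝ) < 1 / 2) 0]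
      norm_num
    calc ENNReal.ofReal (3600 * L * (T * Rf S a)) *
          ∫⁻ u in Iic (-U), ENNReal.ofReal (Real.exp (1 / 2 * u))
        ≤ ENNReal.ofReal (3600 * L * (T * Rf S a)) * ENNReal.ofReal 2 := by gcongr
      _ = ENNReal.ofReal (3600 * L * (T * Rf S a) * 2) := by
          rw [← ENNReal.ofReal_mul (by positivity)]
      _ ≤ ENNReal.ofReal (8000 * T * L ^ 3 * Rf S a) := by
          apply ENNReal.ofReal_le_ofReal
          have h7 : 0 ≤ T * Rf S a := by positivity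
          have h8 : L * (T * Rf S a) ≤ L ^ 3 * (T * Rf S a) := by
            gcongr
            calc L ≤ L * L := le_mul_of_one_le_left (by positivity) hL1
              _ ≤ L * L * L := le_mul_of_one_le_right (by positivity) hL1
              _ = L ^ 3 := by ring
          nlinarith
  calc ∫⁻ u in Iic (0 : ℝ), ENNReal.ofReal (‖Ph S a (zr u δ)‖ ^ 2 * Real.exp u * wt T u)
      ≤ ∫⁻ u in Icc (-U) 0 ∪ Iic (-U),
        ENNReal.ofReal (‖Ph S a (zr u δ)‖ ^ 2 * Real.exp u * wt T u) := lintegral_mono_set hsplit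
    _ ≤ (∫⁻ u in Icc (-U) 0, ENNReal.ofReal (‖Ph S a (zr u δ)‖ ^ 2 * Real.exp u * wt T u)) +
        ∫⁻ u in Iic (-U), ENNReal.ofReal (‖Ph S a (zr u δ)‖ ^ 2 * Real.exp u * wt T u) :=
        lintegral_union_le _ _ _
    _ ≤ ENNReal.ofReal (5000 * T * L ^ 3 * Rf S a) +
        ENNReal.ofReal (8000 * T * L ^ 3 * Rf S a) := add_le_add p1 p2
    _ = ENNReal.ofReal (13000 * T * L ^ 3 * Rf S a) := by
        rw [← ENNReal.ofReal_add (by positivity) (by positivity)]
        congr 1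
        ring

end Pool.Agent.Lib.MP_6bc78b_nt.GP.G11Z
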