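import Pool.Agent.Lib.MP_6bc78b_nt.GP.H2.Zneg

/-! Project GP11, row ZNEG (helper2): the frequencies `u ≤ 0`, any length. -/

set_option autoImplicit false

open Complex Filter Topology MeasureTheory Set
open scoped ENNReal

namespace Pool.Agent.Lib.MP_6bc78b_nt.GP.G11Z

open Pool.Agent.Lib.MP_6bc78b_nt.GP.G11

/-- **ZNEG**, any length. -/
theorem zneg_len {T δ N : ℝ} {S : Finset ℕ} {a : ℕ → ℂ} (hT11 : 11 ≤ T) (hL1 : 1 ≤ Real.log T)
    (hδ1 : 1 / T ≤ δ) (hδ2 : δ ≤ 2 / T) (hN1 : 1 ≤ N) (hN6 : N ^ 6 ≤ Real.sqrt T)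
    (hS : ∀ m ∈ S, 1 ≤ m ∧ (m : ℝ) ≤ N) :
    ∫⁻ u in Iic (0 : ℝ), ENNReal.ofReal (‖Ph S a (zr u δ)‖ ^ 2 * Real.exp u * wt T u) ≤
      ENNReal.ofReal (12000 * T * (Real.log T * (1 + Real.log N) ^ 5) * Rf S a) := by
  have hTp : 0 < T := by linarith
  have hpi := Real.pi_pos
  have hpi3 := Real.pi_gt_three
  have hpi4 := Real.pi_lt_d2
  set L := Real.log T with hL
  have hδ0 : 0 < δ := lt_of_lt_of_le (by positivity) hδ1
  have hδ5 : δ ≤ 1 / 5 := by
    refine hδ2.trans ?_
    rw [div_le_iff₀ hTp]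
    linarith
  have hsin1 : 2 / Real.pi * δ ≤ Real.sin δ := Real.mul_le_sin hδ0.le (by linarith)
  have hsin : 0 < Real.sin δ := lt_of_lt_of_le (by positivity) hsin1
  have hcos : 0 ≤ Real.cos δ := Real.cos_nonneg_of_neg_pi_div_two_le_of_le (by linarith)
    (by linarith)
  have hs13 : 2 * Real.pi / Real.sin δ ≤ 13 * T := by
    rw [div_le_iff₀ hsin]
    have h1 : 2 / Real.pi * (1 / T) ≤ Real.sin δ := le_trans (by gcongr) hsin1
    have h2 : 13 * T * (2 / Real.pi * (1 / T)) ≤ 13 * T * Real.sin δ := by gcongr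
    have h3 : 13 * T * (2 / Real.pi * (1 / T)) = 26 / Real.pi := by
      field_simp
      norm_num
    rw [h3] at h2
    refine le_trans ?_ h2
    rw [le_div_iff₀ hpi]
    nlinarith
  set ll := 1 + Real.log N with hll
  have hl1 : 1 ≤ ll := by
    have := Real.log_nonneg hN1
    linarith
  have hlN : Real.log N ≤ ll := by linarith
  have hR := Rf_nonneg S a
  have hH := int_H (a := a) hS hsin hs13 (by linarith) hN1 hlN hN6 hl1
  have hN2T : N ^ 2 ≤ T := by
    have h3 : N ^ 2 ≤ N ^ 6 := pow_le_pow_right₀ hN1 (by norm_num)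
    have h4 : Real.sqrt T ≤ T := by
      have : Real.sqrt T ^ 2 = T := Real.sq_sqrt hTp.le
      have : 1 ≤ Real.sqrt T := Real.one_le_sqrt.2 (by linarith)
      nlinarith
    linarith
  set A := ∑ m ∈ S, ‖a m‖ with hA
  have hA0 : 0 ≤ A := Finset.sum_nonneg fun m _ => norm_nonneg _
  have hA2 : A ^ 2 ≤ T * Rf S a := (sum_sq_le (a := a) hS).trans (by gcongr)
  set U := 3 * ll with hU
  have hU1 : 1 ≤ U := by linarith
  -- the two parts
  have hsplit : Iic (0 : ℝ) ⊆ Icc (-U) 0 ∪ Iic (-U) := by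
    intro u hu
    rcases le_total (-U) u with h | h
    · exact Or.inl ⟨h, hu⟩
    · exact Or.inr h
  have hcontH : Continuous fun x : ℝ => (3 * A + 1 / 4 * QQ S a δ x) ^ 2 := by
    have := QQ_cont (a := a) (fun m hm => (hS m hm).1) hsin
    fun_prop
  have hQ0 : ∀ x, 0 ≤ QQ S a δ x := fun x => Finset.sum_nonneg fun m _ =>
    mul_nonneg (by positivity) (qm_nonneg _ _ _)
  -- part one
  have p1 : ∫⁻ u in Icc (-U) 0, ENNReal.ofReal (‖Ph S a (zr u δ)‖ ^ 2 * Real.exp u * wt T u) ≤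
      ENNReal.ofReal (4000 * T * (L * ll ^ 5) * Rf S a) := by
    have q1 : ∀ u ∈ Icc (-U) (0:ℝ), ENNReal.ofReal (‖Ph S a (zr u δ)‖ ^ 2 * Real.exp u * wt T u) ≤
        ENNReal.ofReal (2 * L * U ^ 4) * (ENNReal.ofReal (|Real.exp u|) *
          ENNReal.ofReal ((3 * A + 1 / 4 * QQ S a δ (Real.exp u)) ^ 2)) := by
      intro u hu
      have he : 0 < Real.exp u := Real.exp_pos u
      rw [abs_of_pos he, ← ENNReal.ofReal_mul he.le, ← ENNReal.ofReal_mul (by positivity)]
      apply ENNReal.ofReal_le_ofReal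
      have h1 := Ph_le (a := a) (fun m hm => (hS m hm).1) hsin hcos he (Real.exp_le_one_iff.2 hu.2)
      rw [← zr_eq] at h1
      have h2 : ‖Ph S a (zr u δ)‖ ^ 2 ≤ (3 * A + 1 / 4 * QQ S a δ (Real.exp u)) ^ 2 := by
        gcongr
      have h3 : wt T u ≤ 2 * L * U ^ 4 := wt_le hL1 (abs_le.2 ⟨hu.1, by linarith [hu.2]⟩) hU1
      have h4 := wt_nonneg (T := T) (by linarith) u
      calc ‖Ph S a (zr u δ)‖ ^ 2 * Real.exp u * wt T u
          ≤ (3 * A + 1 / 4 * QQ S a δ (Real.exp u)) ^ 2 * Real.exp u * (2 * L * U ^ 4) := by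
            gcongr
        _ = _ := by ring
    refine (setLIntegral_mono' measurableSet_Icc q1).trans ?_
    rw [lintegral_const_mul']
    · have q2 := lintegral_image_eq_lintegral_abs_deriv_mul (s := Icc (-U) (0:ℝ))
        (f := Real.exp) (f' := Real.exp) measurableSet_Icc
        (fun x _ => (Real.hasDerivAt_exp x).hasDerivWithinAt) Real.exp_injective.injOn
        (fun x => ENNReal.ofReal ((3 * A + 1 / 4 * QQ S a δ x) ^ 2))
      rw [← q2]
      have q3 : Real.exp '' Icc (-U) 0 ⊆ Ioc 0 1 := by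
        rintro _ ⟨u, hu, rfl⟩
        exact ⟨Real.exp_pos u, Real.exp_le_one_iff.2 hu.2⟩
      have q4 : ∫⁻ x in Real.exp '' Icc (-U) 0,
          ENNReal.ofReal ((3 * A + 1 / 4 * QQ S a δ x) ^ 2) ≤
          ENNReal.ofReal (24 * ll * T * Rf S a) := by
        refine (lintegral_mono_set q3).trans ?_
        rw [← ofReal_integral_eq_lintegral_ofReal
          (hcontH.continuousOn.integrableOn_Icc.mono_set Ioc_subset_Icc_self)
          (ae_of_all _ fun x => by positivity)]
        apply ENNReal.ofReal_le_ofReal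
        rw [← intervalIntegral.integral_of_le zero_le_one]
        exact hH
      calc ENNReal.ofReal (2 * L * U ^ 4) * ∫⁻ x in Real.exp '' Icc (-U) 0,
            ENNReal.ofReal ((3 * A + 1 / 4 * QQ S a δ x) ^ 2)
          ≤ ENNReal.ofReal (2 * L * U ^ 4) * ENNReal.ofReal (24 * ll * T * Rf S a) := by
            gcongr
        _ = ENNReal.ofReal (2 * L * U ^ 4 * (24 * ll * T * Rf S a)) := by
            rw [← ENNReal.ofReal_mul (by positivity)]
        _ ≤ ENNReal.ofReal (4000 * T * (L * ll ^ 5) * Rf S a) := by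
            apply ENNReal.ofReal_le_ofReal
            have e3 : 2 * L * U ^ 4 * (24 * ll * T * Rf S a) =
                3888 * (L * ll ^ 5 * (T * Rf S a)) := by
              rw [hU]
              ring
            rw [e3]
            have h7 : 0 ≤ L * ll ^ 5 * (T * Rf S a) := by positivity
            nlinarith
    · exact ENNReal.ofReal_ne_top
  -- part two
  have p2 : ∫⁻ u in Iic (-U), ENNReal.ofReal (‖Ph S a (zr u δ)‖ ^ 2 * Real.exp u * wt T u) ≤
      ENNReal.ofReal (8000 * T * (L * ll ^ 5) * Rf S a) := by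
    have q1 : ∀ u ∈ Iic (-U), ENNReal.ofReal (‖Ph S a (zr u δ)‖ ^ 2 * Real.exp u * wt T u) ≤
        ENNReal.ofReal (3600 * L * (T * Rf S a)) * ENNReal.ofReal (Real.exp (1 / 2 * u)) := by
      intro u hu
      have hu' : u ≤ -U := hu
      have hu0 : u ≤ 0 := by linarith
      have he : 0 < Real.exp u := Real.exp_pos u
      rw [← ENNReal.ofReal_mul (by positivity)]
      apply ENNReal.ofReal_le_ofReal
      have hNx : N * Real.exp u ≤ 1 / 2 := by
        have hNe : N = Real.exp (Real.log N) := (Real.exp_log (by linarith)).symm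
        rw [hNe, ← Real.exp_add]
        have h1 : Real.log N + u ≤ -1 := by linarith
        have h2 : Real.exp (Real.log N + u) ≤ Real.exp (-1) := Real.exp_le_exp.2 h1
        have h3 : Real.exp (-1) ≤ 1 / 2 := by
          rw [Real.exp_neg, inv_eq_one_div]
          apply one_div_le_one_div_of_le (by norm_num)
          linarith [Real.add_one_le_exp (1 : ℝ)]
        linarith
      have h1 := Ph_le0 (a := a) hS hsin hcos he hNx
      rw [← zr_eq] at h1
      have h2 : ‖Ph S a (zr u δ)‖ ^ 2 ≤ 9 * (T * Rf S a) := by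
        calc ‖Ph S a (zr u δ)‖ ^ 2 ≤ (3 * A) ^ 2 := by gcongr
          _ = 9 * A ^ 2 := by ring
          _ ≤ 9 * (T * Rf S a) := by linarith
      have h3 := wt_exp (T := T) hL1 hu0
      have h4 := wt_nonneg (T := T) (by linarith) u
      calc ‖Ph S a (zr u δ)‖ ^ 2 * Real.exp u * wt T u
          = ‖Ph S a (zr u δ)‖ ^ 2 * (Real.exp u * wt T u) := by ring
        _ ≤ 9 * (T * Rf S a) * (400 * L * Real.exp (1 / 2 * u)) := by gcongr
        _ = _ := by ring
    refine (setLIntegral_mono' measurableSet_Iic q1).trans ?_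
    rw [lintegral_const_mul' _ _ ENNReal.ofReal_ne_top]
    have q2 : ∫⁻ u in Iic (-U), ENNReal.ofReal (Real.exp (1 / 2 * u)) ≤ ENNReal.ofReal 2 := by
      have q3 : Iic (-U) ⊆ Iic (0 : ℝ) := Iic_subset_Iic.2 (by linarith)
      refine (lintegral_mono_set q3).trans ?_
      rw [← ofReal_integral_eq_lintegral_ofReal
        (integrableOn_exp_mul_Iic (by norm_num : (0:ℝ) < 1 / 2) 0)
        (ae_of_all _ fun x => (Real.exp_pos _).le),
        integral_exp_mul_Iic (by norm_num : (0:ℝ) < 1 / 2) 0]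
      norm_num
    calc ENNReal.ofReal (3600 * L * (T * Rf S a)) *
          ∫⁻ u in Iic (-U), ENNReal.ofReal (Real.exp (1 / 2 * u))
        ≤ ENNReal.ofReal (3600 * L * (T * Rf S a)) * ENNReal.ofReal 2 := by gcongr
      _ = ENNReal.ofReal (3600 * L * (T * Rf S a) * 2) := by
          rw [← ENNReal.ofReal_mul (by positivity)]
      _ ≤ ENNReal.ofReal (8000 * T * (L * ll ^ 5) * Rf S a) := by
          apply ENNReal.ofReal_le_ofReal
          have h7 : 0 ≤ T * Rf S a := by positivity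
          have h6 : 1 ≤ ll ^ 5 := one_le_pow₀ hl1
          have h8 : L * (T * Rf S a) * 1 ≤ L * (T * Rf S a) * ll ^ 5 := by gcongr
          nlinarith
  calc ∫⁻ u in Iic (0 : ℝ), ENNReal.ofReal (‖Ph S a (zr u δ)‖ ^ 2 * Real.exp u * wt T u)
      ≤ ∫⁻ u in Icc (-U) 0 ∪ Iic (-U),
        ENNReal.ofReal (‖Ph S a (zr u δ)‖ ^ 2 * Real.exp u * wt T u) := lintegral_mono_set hsplit
    _ ≤ (∫⁻ u in Icc (-U) 0, ENNReal.ofReal (‖Ph S a (zr u δ)‖ ^ 2 * Real.exp u * wt T u)) +
        ∫⁻ u in Iic (-U), ENNReal.ofReal (‖Ph S a (zr u δ)‖ ^ 2 * Real.exp u * wt T u) :=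
        lintegral_union_le _ _ _
    _ ≤ ENNReal.ofReal (4000 * T * (L * ll ^ 5) * Rf S a) +
        ENNReal.ofReal (8000 * T * (L * ll ^ 5) * Rf S a) := add_le_add p1 p2
    _ = ENNReal.ofReal (12000 * T * (L * ll ^ 5) * Rf S a) := by
        rw [← ENNReal.ofReal_add (by positivity) (by positivity)]
        congr 1
        ring

end Pool.Agent.Lib.MP_6bc78b_nt.GP.G11Z
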